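import Mathlib

/-!
# Winning the Ulam games does not give a winning strategy in the games `𝒢*_γ`

Let `μ` be a measurable cardinal and let `κ > μ` be an inaccessible cardinal such that there is no
weakly compact cardinal strictly between `μ` and `κ`; for instance `κ` is the least inaccessible
cardinal above `μ`, or the least weakly compact cardinal above `μ`. For every `γ` with
`ω ≤ γ < μ` player II has a winning strategy in the Ulam game of length `γ` on `κ`, and no winning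
strategy in `𝒢*_γ` on `κ`.

For the Ulam game II uses the measure on `μ ⊆ κ`. If II has a winning strategy in `𝒢*_γ` with
`γ ≥ ω`, then `κ` is weakly compact and it is a limit of weakly compact cardinals: player I plays
algebras which contain the sets defined from families of functions from `κ` to `κ`, the family of
stage `n + 1` contains functions which are defined from homogeneous sets for the colourings of
pairs which are defined from the answer of II at stage `n`. After `ω` many moves there is a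
`κ`-complete ultrafilter `V` which extends all of the answers. If `g` is a minimal unbounded function
modulo `V`, then `g(x)` is a weakly compact cardinal for `V`-almost all `x`.
-/

set_option autoImplicit false
set_option linter.unusedSectionVars false

namespace Pool.Agent.Results.MP_0eb1a9_lc.UlamNotStar

open Cardinal Ordinal Set

universe u

/-- A `κ`-complete subalgebra of the power set of `S`: closed under complements and under
intersections of fewer than `κ` members (with the empty intersection being `S`). -/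
structure IsAlg (κ : Cardinal.{u}) {S : Type u} (A : Set (Set S)) : Prop where
  compl : ∀ X ∈ A, Xᶜ ∈ A
  inter : ∀ T : Set (Set S), T ⊆ A → #T < κ → ⋂₀ T ∈ A

/-- A uniform `κ`-complete ultrafilter on the algebra `A`. -/
structure IsUlt (κ : Cardinal.{u}) {S : Type u} (A U : Set (Set S)) : Prop where
  sub : U ⊆ A
  up : ∀ X ∈ U, ∀ Y ∈ A, X ⊆ Y → Y ∈ U
  inter : ∀ T : Set (Set S), T ⊆ U → #T < κ → ⋂₀ T ∈ U
  ultra : ∀ X ∈ A, X ∈ U ∨ Xᶜ ∈ U
  uniform : ∀ X ∈ U, #X = κ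

/-! ### The games -/

/-- The moves `A β`, `β ≤ α`, of player I in the Welch game are legal. -/
structure LegalI (κ : Cardinal.{u}) (A : Ordinal.{u} → Set (Set κ.ord.ToType))
    (α : Ordinal.{u}) : Prop where
  alg : ∀ β ≤ α, IsAlg κ (A β)
  card : ∀ β ≤ α, #(A β) = κ
  mono : ∀ β δ, β ≤ δ → δ ≤ α → A β ⊆ A δ
  single : ∀ x, {x} ∈ A 0

/-- The `κ`-complete algebra generated by `G`. -/
def genAlg (κ : Cardinal.{u}) {S : Type u} (G : Set (Set S)) : Set (Set S) :=
  ⋂₀ {B | IsAlg κ B ∧ G ⊆ B}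

/-- Player II has a winning strategy in the game `𝒢*_γ` on `κ`. A strategy gives the answer `σ α A`
at stage `α` to the sequence `A` of the moves of player I, it depends only on the moves `A β` with
`β ≤ α`. -/
def StarWins (κ : Cardinal.{u}) (γ : Ordinal.{u}) : Prop :=
  ∃ σ : Ordinal.{u} → (Ordinal.{u} → Set (Set κ.ord.ToType)) → Set (Set κ.ord.ToType),
    (∀ α A A', (∀ β ≤ α, A β = A' β) → σ α A = σ α A') ∧
    (∀ A, ∀ α < γ, LegalI κ A α → IsUlt κ (A α) (σ α A) ∧ ∀ β ≤ α, σ β A ⊆ σ α A) ∧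
    ∀ A, (∀ α < γ, LegalI κ A α) →
      ∃ V, IsUlt κ (genAlg κ (⋃ α < γ, A α)) V ∧ ∀ α < γ, σ α A ⊆ V

/-- The set `B_α` which player II chooses at stage `α` of the Ulam game, if player I plays the
partitions `P` and II plays according to `σ`. -/
def chosen {S : Type u} (σ : Ordinal.{u} → (Ordinal.{u} → Set S × Set S) → Bool)
    (P : Ordinal.{u} → Set S × Set S) (α : Ordinal.{u}) : Set S :=
  if σ α P = true then (P α).1 else (P α).2

/-- Player II has a winning strategy in the Ulam game of length `γ` on `κ`. A strategy chooses a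
piece at stage `α` depending on the sequence `P β`, `β ≤ α`, of the partitions played by I. -/
def UlamWins (κ : Cardinal.{u}) (γ : Ordinal.{u}) : Prop :=
  ∃ σ : Ordinal.{u} → (Ordinal.{u} → Set κ.ord.ToType × Set κ.ord.ToType) → Bool,
    (∀ α P P', (∀ β ≤ α, P β = P' β) → σ α P = σ α P') ∧
    ∀ P, (∀ α < γ, (P α).1 ∪ (P α).2 = {x | ∀ β < α, x ∈ chosen σ P β} ∧
        Disjoint (P α).1 (P α).2) →
      ∃ x y, x ≠ y ∧ ∀ α < γ, x ∈ chosen σ P α ∧ y ∈ chosen σ P α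

/-- `μ` is a measurable cardinal. -/
def IsMeasurable (μ : Cardinal.{u}) : Prop :=
  ℵ₀ < μ ∧ ∃ D : Ultrafilter μ.ord.ToType, (∀ x, {x} ∉ D) ∧
    ∀ T : Set (Set μ.ord.ToType), (∀ X ∈ T, X ∈ D) → #T < μ → ⋂₀ T ∈ D

/-! ### The combinatorial core -/

section core

variable {κ : Cardinal.{u}} {S : Type u}

/-- The `κ`-complete algebra generated by `G`. -/
def gen (κ : Cardinal.{u}) (G : Set (Set S)) : Set (Set S) :=
  {X | ∃ T ⊆ G, #T < κ ∧ ∀ x y, (∀ Y ∈ T, (x ∈ Y ↔ y ∈ Y)) → (x ∈ X ↔ y ∈ X)}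

theorem subset_gen (hκ : κ.IsInaccessible) (G : Set (Set S)) : G ⊆ gen κ G := by
  intro X hX
  refine ⟨{X}, by simpa using hX, ?_, ?_⟩
  · simpa using hκ.nat_lt 1
  · intro x y h
    exact h X rfl

theorem gen_mono {G G' : Set (Set S)} (h : G ⊆ G') : gen κ G ⊆ gen κ G' := by
  rintro X ⟨T, hT, hc, hX⟩
  exact ⟨T, hT.trans h, hc, hX⟩

theorem isAlg_gen (hκ : κ.IsInaccessible) (G : Set (Set S)) : IsAlg κ (gen κ G) := by
  constructor
  · rintro X ⟨T, hT, hc, hX⟩
    refine ⟨T, hT, hc, fun x y h => ?_⟩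
    rw [mem_compl_iff, mem_compl_iff, hX x y h]
  · intro R hR hc
    have hR' : ∀ X ∈ R, ∃ T : Set (Set S), T ⊆ G ∧ #T < κ ∧
        ∀ x y, (∀ Y ∈ T, (x ∈ Y ↔ y ∈ Y)) → (x ∈ X ↔ y ∈ X) := fun X hX => hR hX
    choose! T hT hTc hTX using hR'
    refine ⟨⋃ X : R, T X.1, ?_, ?_, ?_⟩
    · intro Y hY
      rw [mem_iUnion] at hY
      obtain ⟨X, hX⟩ := hY
      exact hT X.1 X.2 hX
    · exact (Cardinal.card_iUnion_lt_iff_forall_of_isRegular hκ.isRegular hc).2
        (fun X => hTc X.1 X.2)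
    · intro x y h
      simp only [mem_sInter]
      refine forall₂_congr fun X hX => ?_
      refine hTX X hX x y fun Y hY => h Y ?_
      rw [mem_iUnion]
      exact ⟨⟨X, hX⟩, hY⟩

variable [LinearOrder S] [WellFoundedLT S]

theorem bounded (hκ : κ.IsInaccessible) (hS : #S = κ) (hI : ∀ x : S, #(Iio x) < κ)
    {T : Set S} (hT : #T < κ) : ∃ b, ∀ t ∈ T, t < b := by
  by_contra hcon
  push Not at hcon
  have h1 : (⋃ t : T, Iic t.1) = Set.univ := by
    ext x
    simp only [mem_iUnion, mem_Iic, Set.mem_univ, iff_true]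
    obtain ⟨t, ht, h⟩ := hcon x
    exact ⟨⟨t, ht⟩, h⟩
  have h2 : #(⋃ t : T, Iic t.1) < κ := by
    refine (Cardinal.card_iUnion_lt_iff_forall_of_isRegular hκ.isRegular hT).2 (fun t => ?_)
    have : Iic t.1 = insert t.1 (Iio t.1) := by
      ext y
      simp [le_iff_eq_or_lt]
    rw [this]
    refine (mk_insert_le).trans_lt ?_
    exact add_lt_of_lt hκ.aleph0_lt.le (hI _) (hκ.nat_lt 1)
  rw [h1, mk_univ, hS] at h2
  exact lt_irrefl _ h2

theorem mk_gen_le (hκ : κ.IsInaccessible) (hS : #S = κ) (hI : ∀ x : S, #(Iio x) < κ)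
    {G : Set (Set S)} (hG : #G ≤ κ) : #(gen κ G) ≤ κ := by
  classical
  rcases G.eq_empty_or_nonempty with h0 | h0
  · subst h0
    have : gen κ (∅ : Set (Set S)) ⊆ {∅, Set.univ} := by
      rintro X ⟨T, hT, hc, hX⟩
      rw [subset_empty_iff] at hT
      subst hT
      simp only [mem_empty_iff_false, false_implies, implies_true, true_implies] at hX
      rcases X.eq_empty_or_nonempty with h | ⟨x, hx⟩
      · simp [h]
      · right
        ext y
        simp [← hX x y, hx]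
    refine (mk_le_mk_of_subset this).trans ?_
    refine (mk_insert_le).trans ?_
    rw [mk_singleton]
    exact_mod_cast (hκ.nat_lt 2).le
  · rw [← hS] at hG
    obtain ⟨e⟩ := hG
    have : Nonempty G := h0.to_subtype
    let g : S → Set S := fun s => (Function.invFun e s : G).1
    have hg : ∀ Y ∈ G, ∃ s, g s = Y := fun Y hY =>
      ⟨e ⟨Y, hY⟩, by simp [g, Function.leftInverse_invFun e.injective ⟨Y, hY⟩]⟩
    let B : S → Set (Set S) := fun b =>
      {X | ∀ x y, (∀ c < b, (x ∈ g c ↔ y ∈ g c)) → (x ∈ X ↔ y ∈ X)}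
    have hsub : gen κ G ⊆ ⋃ b, B b := by
      rintro X ⟨T, hT, hc, hX⟩
      have : Nonempty S := by
        obtain ⟨Y, hY⟩ := h0
        exact ⟨(hg Y hY).choose⟩
      choose! i hi using hg
      obtain ⟨b, hb⟩ := bounded hκ hS hI (T := i '' T) (mk_image_le.trans_lt hc)
      rw [mem_iUnion]
      refine ⟨b, fun x y h => hX x y fun Y hY => ?_⟩
      have := h (i Y) (hb _ (mem_image_of_mem _ hY))
      rwa [hi Y (hT hY)] at this
    have hB : ∀ b, #(B b) ≤ κ := by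
      intro b
      have hinj : Function.Injective (fun X : B b =>
          ({p | ∃ x ∈ X.1, p = {c : Iio b | x ∈ g c.1}} : Set (Set (Iio b)))) := by
        intro X Y h
        have key : ∀ X Y : B b, ({p | ∃ x ∈ X.1, p = {c : Iio b | x ∈ g c.1}} :
            Set (Set (Iio b))) = {p | ∃ x ∈ Y.1, p = {c : Iio b | x ∈ g c.1}} →
            X.1 ⊆ Y.1 := by
          intro X Y h x hx
          have h1 : {c : Iio b | x ∈ g c.1} ∈
              ({p | ∃ x ∈ X.1, p = {c : Iio b | x ∈ g c.1}} : Set (Set (Iio b))) :=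
            ⟨x, hx, rfl⟩
          rw [h] at h1
          obtain ⟨y, hy, h2⟩ := h1
          refine (Y.2 x y fun c hc => ?_).2 hy
          have := Set.ext_iff.1 h2 ⟨c, hc⟩
          simpa using this
        exact Subtype.ext ((key X Y h).antisymm (key Y X h.symm))
      refine (mk_le_of_injective hinj).trans ?_
      rw [mk_set, mk_set]
      exact (hκ.isStrongPrelimit (hκ.isStrongPrelimit (hI b))).le
    refine (mk_le_mk_of_subset hsub).trans ?_
    refine (mk_iUnion_le_sum_mk).trans ?_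
    refine (sum_le_sum _ _ hB).trans ?_
    rw [sum_const', hS, mul_eq_self hκ.aleph0_lt.le]

theorem exists_Iio_eq (a : S) {l : Cardinal.{u}} (h : l < #(Iio a)) : ∃ b < a, #(Iio b) = l := by
  have h1 : l.ord < typein (α := S) (· < ·) a := by
    have : l < (typein (α := S) (· < ·) a).card := by
      rwa [card_typein]
    exact (Cardinal.ord_lt_ord.2 this).trans_le (ord_card_le _)
  have h2 : l.ord < type (α := S) (· < ·) := h1.trans (typein_lt_type _ a)
  refine ⟨enum (α := S) (· < ·) ⟨l.ord, h2⟩, ?_, ?_⟩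
  · rw [← typein_lt_typein (α := S) (· < ·), typein_enum]
    exact h1
  · have := card_typein (r := fun a b : S => a < b) (enum (α := S) (· < ·) ⟨l.ord, h2⟩)
    rw [typein_enum, card_ord] at this
    exact this.symm

/-- The cardinal of the set of the predecessors of `a` is inaccessible, if `a` cannot be reached
from below. -/
theorem inaccessible_of (a : S) (h0 : ℵ₀ < #(Iio a)) (h1 : ∀ b < a, #(Iio b) ≠ #(Iio a))
    (h2 : ∀ b < a, ¬ ∃ T : Set S, T ⊆ Iio a ∧ (∀ y < a, ∃ t ∈ T, y ≤ t) ∧ #T ≤ #(Iio b))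
    (h3 : ∀ b < a, ¬ #(Iio a) ≤ 2 ^ #(Iio b)) : (#(Iio a)).IsInaccessible := by
  refine ⟨h0, ?_, ?_⟩
  · have ht : (#(Iio a)).ord = type (α := Iio a) (· < ·) := by
      refine (ord_le_type _).antisymm ?_
      by_contra hcon
      rw [not_le] at hcon
      set b := enum (α := Iio a) (· < ·) ⟨_, hcon⟩ with hb
      have h4 := card_typein (r := fun y z : Iio a => y < z) b
      rw [hb, typein_enum, card_ord, ← hb] at h4
      refine h1 b.1 b.2 ?_
      rw [h4]
      refine mk_congr ⟨fun y => ⟨⟨y.1, y.2.trans b.2⟩, y.2⟩, fun y => ⟨y.1.1, y.2⟩,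
        fun y => rfl, fun y => rfl⟩
    rw [ht]
    have h5 : (type (α := Iio a) (· < ·)).cof = Order.cof (Iio a) := Ordinal.cof_type _
    rw [h5, Order.le_cof_iff]
    intro T hT
    by_contra hcon
    rw [not_le] at hcon
    obtain ⟨b, hb, hb1⟩ := exists_Iio_eq a hcon
    refine h2 b hb ⟨Subtype.val '' T, ?_, ?_, ?_⟩
    · rintro _ ⟨t, -, rfl⟩
      exact t.2
    · intro y hy
      obtain ⟨t, ht, h⟩ := hT ⟨y, hy⟩
      exact ⟨t.1, ⟨t, ht, rfl⟩, h⟩
    · rw [hb1]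
      exact mk_image_le
  · intro l hl
    obtain ⟨b, hb, rfl⟩ := exists_Iio_eq a hl
    exact not_le.1 (h3 b hb)

theorem IsAlg.iInter {B : Set (Set S)} (hB : IsAlg κ B) {ι : Type u} (hι : #ι < κ)
    (X : ι → Set S) (h : ∀ i, X i ∈ B) : (⋂ i, X i) ∈ B := by
  rw [← sInter_range]
  exact hB.inter _ (by rintro _ ⟨i, rfl⟩; exact h i) (mk_range_le.trans_lt hι)

theorem IsUlt.iInter {B U : Set (Set S)} (hU : IsUlt κ B U) {ι : Type u} (hι : #ι < κ)
    (X : ι → Set S) (h : ∀ i, X i ∈ U) : (⋂ i, X i) ∈ U := by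
  rw [← sInter_range]
  exact hU.inter _ (by rintro _ ⟨i, rfl⟩; exact h i) (mk_range_le.trans_lt hι)

theorem IsUlt.nonempty {B U : Set (Set S)} (hU : IsUlt κ B U) (hκ : κ.IsInaccessible)
    {X : Set S} (h : X ∈ U) : X.Nonempty := by
  by_contra hcon
  rw [not_nonempty_iff_eq_empty] at hcon
  have := hU.uniform X h
  rw [hcon, mk_eq_zero] at this
  exact hκ.ne_zero this.symm

theorem IsUlt.inter2 {B U : Set (Set S)} (hU : IsUlt κ B U) (hκ : κ.IsInaccessible)
    {X Y : Set S} (hX : X ∈ U) (hY : Y ∈ U) : X ∩ Y ∈ U := by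
  have : ⋂₀ {X, Y} ∈ U := by
    refine hU.inter _ (by rintro _ (rfl | rfl) <;> assumption) ?_
    refine (mk_insert_le).trans_lt ?_
    rw [mk_singleton]
    exact_mod_cast (hκ.nat_lt 2)
  rwa [sInter_pair] at this

/-- The sets which are defined from the functions in `F`. -/
structure Good (B : Set (Set S)) (F : Set (S → S)) : Prop where
  lt : ∀ f ∈ F, ∀ g ∈ F, {x | f x < g x} ∈ B
  eq : ∀ f ∈ F, ∀ b, {x | f x = b} ∈ B

theorem Good.lt' (hI : ∀ x : S, #(Iio x) < κ) {B : Set (Set S)}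
    {F : Set (S → S)} (hB : IsAlg κ B) (hF : Good B F) {f : S → S} (hf : f ∈ F) (b : S) :
    {x | f x < b} ∈ B := by
  have h1 : (⋂ c : Iio b, {x | f x = c.1}ᶜ) ∈ B :=
    hB.iInter (hI b) _ fun c => hB.compl _ (hF.eq f hf _)
  have h2 : {x | f x < b} = (⋂ c : Iio b, {x | f x = c.1}ᶜ)ᶜ := by
    ext x
    simp
  rw [h2]
  exact hB.compl _ h1

theorem const_of_lt (hκ : κ.IsInaccessible) (hI : ∀ x : S, #(Iio x) < κ) {B U : Set (Set S)}
    {F : Set (S → S)} (hU : IsUlt κ B U) (hF : Good B F) {f : S → S}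
    (hf : f ∈ F) {b : S} (h : {x | f x < b} ∈ U) : ∃ c, {x | f x = c} ∈ U := by
  by_contra hcon
  push Not at hcon
  have h1 : ∀ c : Iio b, {x | f x = c.1}ᶜ ∈ U := fun c =>
    (hU.ultra _ (hF.eq f hf c.1)).resolve_left (hcon c.1)
  obtain ⟨x, hx1, hx2⟩ := hU.nonempty hκ (hU.inter2 hκ h (hU.iInter (hI b) _ h1))
  rw [mem_iInter] at hx2
  exact hx2 ⟨f x, hx1⟩ rfl

/-- There is a minimal unbounded function. -/
theorem exists_min (hκ : κ.IsInaccessible) (hI : ∀ x : S, #(Iio x) < κ) {B U : Set (Set S)}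
    {F : Set (S → S)} (hU : IsUlt κ B U) (hid : id ∈ F) :
    ∃ g ∈ F, (∀ b, {x | g x < b} ∉ U) ∧
      ∀ f ∈ F, {x | f x < g x} ∈ U → ∃ b, {x | f x < b} ∈ U := by
  by_contra hcon
  push Not at hcon
  have h0 : ∀ b, {x : S | id x < b} ∉ U := by
    intro b hb
    have := hU.uniform _ hb
    exact absurd this (hI b).ne
  choose! n hn1 hn2 hn3 using hcon
  let s : ℕ → S → S := fun k => Nat.rec id (fun _ f => n f) k
  have hs : ∀ k, s k ∈ F ∧ ∀ b, {x : S | s k x < b} ∉ U := by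
    intro k
    induction k with
    | zero => exact ⟨hid, h0⟩
    | succ k ih => exact ⟨hn1 _ ih.1 ih.2, hn3 _ ih.1 ih.2⟩
  have h1 : (⋂ k : ULift.{u} ℕ, {x | s (k.down + 1) x < s k.down x}) ∈ U := by
    refine hU.iInter ?_ _ fun k => hn2 _ (hs _).1 (hs _).2
    rw [mk_uLift, mk_nat, lift_aleph0]
    exact hκ.aleph0_lt
  obtain ⟨x, hx⟩ := hU.nonempty hκ h1
  rw [mem_iInter] at hx
  obtain ⟨_, ⟨k, rfl⟩, hk⟩ := wellFounded_lt.has_min (range fun k => s k x) ⟨_, 0, rfl⟩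
  exact hk _ ⟨k + 1, rfl⟩ (hx ⟨k⟩)

/-- `g` is a minimal unbounded function of `F` with respect to `U`. -/
structure Minl (U : Set (Set S)) (F : Set (S → S)) (g : S → S) : Prop where
  mem : g ∈ F
  unb : ∀ b, {x | g x < b} ∉ U
  min : ∀ f ∈ F, {x | f x < g x} ∈ U → ∃ b, {x | f x < b} ∈ U

/-- The least element with as many predecessors as `a`. -/
noncomputable def fInit (a : S) : S :=
  wellFounded_lt.min {b : S | #(Iio b) = #(Iio a)} ⟨a, rfl⟩

/-- The least `b` such that `Iio b` is at least as large as some cofinal subset of `Iio a`. -/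
noncomputable def fCof (a : S) : S :=
  wellFounded_lt.min {b : S | ∃ T : Set S, T ⊆ Iio a ∧ (∀ y < a, ∃ t ∈ T, y ≤ t) ∧
    #T ≤ #(Iio b)} ⟨a, Iio a, subset_rfl, fun y hy => ⟨y, hy, le_rfl⟩, le_rfl⟩

/-- The least `b` such that `Iio a` is at most as large as the power set of `Iio b`. -/
noncomputable def fPow (a : S) : S :=
  wellFounded_lt.min {b : S | #(Iio a) ≤ 2 ^ #(Iio b)} ⟨a, (cantor #(Iio a)).le⟩

theorem exists_fE (a : S) : ∃ e : S → S, ∀ y < a, ∃ c < fCof a, y ≤ e c ∧ e c < a := by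
  obtain ⟨T, hT, hT1, hT2⟩ := wellFounded_lt.min_mem {b : S | ∃ T : Set S, T ⊆ Iio a ∧
    (∀ y < a, ∃ t ∈ T, y ≤ t) ∧ #T ≤ #(Iio b)}
    ⟨a, Iio a, subset_rfl, fun y hy => ⟨y, hy, le_rfl⟩, le_rfl⟩
  change #T ≤ #(Iio (fCof a)) at hT2
  obtain ⟨i⟩ := hT2
  classical
  refine ⟨fun c => if h : ∃ t : T, (i t).1 = c then h.choose.1 else a, fun y hy => ?_⟩
  obtain ⟨t, ht, hyt⟩ := hT1 y hy
  refine ⟨(i ⟨t, ht⟩).1, (i ⟨t, ht⟩).2, ?_⟩
  have h : ∃ t' : T, (i t').1 = (i ⟨t, ht⟩).1 := ⟨_, rfl⟩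
  have h2 : h.choose = ⟨t, ht⟩ := i.injective (Subtype.ext h.choose_spec)
  change y ≤ dite _ _ _ ∧ dite _ _ _ < a
  rw [dif_pos h, h2]
  exact ⟨hyt, hT ht⟩

/-- The `c`-th value of a cofinal function into `Iio a`. -/
noncomputable def fE (c a : S) : S := (exists_fE a).choose c

theorem fE_spec (a : S) : ∀ y < a, ∃ c < fCof a, y ≤ fE c a ∧ fE c a < a :=
  (exists_fE a).choose_spec

/-- `H` is a homogeneous set of colour `i` for `c`. -/
def Homog {T : Type u} [LinearOrder T] (c : T → T → Bool) (H : Set T) (i : Bool) : Prop :=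
  ∀ x ∈ H, ∀ y ∈ H, x < y → c x y = i

/-- Each colouring of the pairs of elements of `T` by two colours has a homogeneous set which is
as large as `T`. -/
def Ram (T : Type u) [LinearOrder T] : Prop :=
  ∀ c : T → T → Bool, ∃ (H : Set T) (i : Bool), #H = #T ∧ Homog c H i

theorem Ram.of_iso {T T' : Type u} [LinearOrder T] [LinearOrder T'] (h : Ram T)
    (e : T ≃o T') : Ram T' := by
  intro c
  obtain ⟨H, i, hH, hi⟩ := h fun x y => c (e x) (e y)
  refine ⟨e '' H, i, ?_, ?_⟩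
  · rw [mk_image_eq e.injective, hH]
    exact mk_congr e.toEquiv
  · rintro _ ⟨x, hx, rfl⟩ _ ⟨y, hy, rfl⟩ hxy
    exact hi x hx y hy (e.lt_iff_lt.1 hxy)

/-- A colouring without large homogeneous subsets of `Iio a`. -/
def BadC (a : S) (c : S → S → Bool) : Prop :=
  ∀ (H : Set S) (i : Bool), H ⊆ Iio a → #H = #(Iio a) → ¬ Homog c H i

open Classical in
/-- A bad colouring at `a`, if there is one. -/
noncomputable def bc (a : S) : S → S → Bool :=
  if h : ∃ c, BadC a c then h.choose else fun _ _ => true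

theorem bc_spec (a : S) (H : Set S) (i : Bool) (h1 : H ⊆ Iio a) (h2 : #H = #(Iio a))
    (h3 : Homog (bc a) H i) : ∀ c, ¬ BadC a c := by
  intro c hc
  have h : ∃ c, BadC a c := ⟨c, hc⟩
  have h4 := h.choose_spec
  have h5 : bc a = h.choose := dif_pos h
  rw [h5] at h3
  exact h4 H i h1 h2 h3

/-- The colour of the pair `x, y` in the bad colouring at `a`. -/
noncomputable def fBc (s t : S) (x y a : S) : S := if bc a x y then s else t

/-- The basic functions. -/
def base (S : Type u) [LinearOrder S] [WellFoundedLT S] : Set (S → S) :=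
  {fInit, fCof, fPow} ∪ (range fE ∪ range fun p : (S × S) × (S × S) => fBc p.1.1 p.1.2 p.2.1 p.2.2)

section

variable (hκ : κ.IsInaccessible) (hS : #S = κ) (hI : ∀ x : S, #(Iio x) < κ)
  {B U : Set (Set S)} {F : Set (S → S)} (hB : IsAlg κ B) (hU : IsUlt κ B U) (hF : Good B F)
  {g : S → S} (hg : Minl U F g)

include hκ hI hU hF hg in
theorem Minl.const {f : S → S} (hf : f ∈ F) (h : {x | f x < g x} ∈ U) :
    ∃ c, {x | f x = c} ∈ U := by
  obtain ⟨b, hb⟩ := hg.min f hf h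
  exact const_of_lt hκ hI hU hF hf hb

include hκ hS hI in
theorem exists_large {l : Cardinal.{u}} (hl : l < κ) : ∃ b : S, l < #(Iio b) := by
  have h1 : Order.succ l < κ := hκ.isSuccLimit.succ_lt hl
  rw [← hS, ← mk_univ, lt_iff_le_and_ne] at h1
  obtain ⟨T, -, hT⟩ := le_mk_iff_exists_subset.1 h1.1
  have h2 : #T < κ := by
    rw [hT]
    exact hκ.isSuccLimit.succ_lt hl
  obtain ⟨b, hb⟩ := bounded hκ hS hI h2
  refine ⟨b, (Order.lt_succ l).trans_le ?_⟩
  rw [← hT]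
  exact mk_le_mk_of_subset hb

include hκ hS hI hB hU hF hg in
theorem Minl.not_small {X : Set S} (hX : X ∈ U) {l : Cardinal.{u}} (hl : l < κ)
    (h : ∀ x ∈ X, #(Iio (g x)) ≤ l) : False := by
  obtain ⟨b, hb⟩ := exists_large hκ hS hI hl
  refine hg.unb b (hU.up X hX _ (hF.lt' hI hB hg.mem b) fun x hx => ?_)
  by_contra hcon
  rw [mem_ofPred_eq, not_lt] at hcon
  exact absurd ((mk_le_mk_of_subset (Iio_subset_Iio hcon)).trans (h x hx)) (not_le.2 hb)

include hκ hS hI hB hU hF hg in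
theorem Minl.large {l : Cardinal.{u}} (hl : l < κ) :
    ∃ X ∈ U, ∀ x ∈ X, l < #(Iio (g x)) := by
  obtain ⟨b, hb⟩ := exists_large hκ hS hI hl
  refine ⟨_, (hU.ultra _ (hF.lt' hI hB hg.mem b)).resolve_left (hg.unb b), fun x hx => ?_⟩
  rw [mem_compl_iff, mem_ofPred_eq, not_lt] at hx
  exact hb.trans_le (mk_le_mk_of_subset (Iio_subset_Iio hx))

include hκ hS hI hB hU hF hg in
theorem Minl.init (hcl : ∀ φ ∈ base S, ∀ f ∈ F, φ ∘ f ∈ F) :
    ∃ X ∈ U, ∀ x ∈ X, ∀ b < g x, #(Iio b) ≠ #(Iio (g x)) := by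
  have h1 : fInit ∘ g ∈ F := hcl _ (Or.inl (by simp)) _ hg.mem
  rcases hU.ultra _ (hF.lt _ h1 _ hg.mem) with h | h
  · exfalso
    obtain ⟨c, hc⟩ := hg.const hκ hI hU hF h1 h
    refine hg.not_small hκ hS hI hB hU hF hc (hI c) fun x hx => ?_
    have := wellFounded_lt.min_mem {b : S | #(Iio b) = #(Iio (g x))} ⟨g x, rfl⟩
    rw [mem_ofPred_eq] at hx
    change #(Iio (fInit (g x))) = #(Iio (g x)) at this
    rw [← this]
    exact (congrArg (fun y => #(Iio y)) hx).le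
  · refine ⟨_, h, fun x hx b hb hcon => hx ?_⟩
    exact lt_of_le_of_lt (wellFounded_lt.min_le (s := {b : S | #(Iio b) = #(Iio (g x))}) hcon) hb

include hκ hS hI hB hU hF hg in
theorem Minl.pow (hcl : ∀ φ ∈ base S, ∀ f ∈ F, φ ∘ f ∈ F) :
    ∃ X ∈ U, ∀ x ∈ X, ∀ b < g x, ¬ #(Iio (g x)) ≤ 2 ^ #(Iio b) := by
  have h1 : fPow ∘ g ∈ F := hcl _ (Or.inl (by simp)) _ hg.mem
  rcases hU.ultra _ (hF.lt _ h1 _ hg.mem) with h | h
  · exfalso
    obtain ⟨c, hc⟩ := hg.const hκ hI hU hF h1 h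
    refine hg.not_small hκ hS hI hB hU hF hc (hκ.isStrongPrelimit (hI c)) fun x hx => ?_
    have := wellFounded_lt.min_mem {b : S | #(Iio (g x)) ≤ 2 ^ #(Iio b)} ⟨g x, (cantor #(Iio (g x))).le⟩
    rw [mem_ofPred_eq] at hx
    change #(Iio (g x)) ≤ 2 ^ #(Iio (fPow (g x))) at this
    rwa [show fPow (g x) = c from hx] at this
  · refine ⟨_, h, fun x hx b hb hcon => hx ?_⟩
    exact lt_of_le_of_lt
      (wellFounded_lt.min_le (s := {b : S | #(Iio (g x)) ≤ 2 ^ #(Iio b)}) hcon) hb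

include hκ hS hI hB hU hF hg in
theorem Minl.cof (hcl : ∀ φ ∈ base S, ∀ f ∈ F, φ ∘ f ∈ F) :
    ∃ X ∈ U, ∀ x ∈ X, ∀ b < g x, ¬ ∃ T : Set S, T ⊆ Iio (g x) ∧
      (∀ y < g x, ∃ t ∈ T, y ≤ t) ∧ #T ≤ #(Iio b) := by
  have h1 : fCof ∘ g ∈ F := hcl _ (Or.inl (by simp)) _ hg.mem
  rcases hU.ultra _ (hF.lt _ h1 _ hg.mem) with h | h
  · exfalso
    obtain ⟨b, hb⟩ := hg.const hκ hI hU hF h1 h
    have h2 : ∀ c : S, ∃ X ∈ U, ∃ d, ∀ x ∈ X, fE c (g x) < g x → fE c (g x) = d := by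
      intro c
      have h3 : fE c ∘ g ∈ F := hcl _ (Or.inr (Or.inl ⟨c, rfl⟩)) _ hg.mem
      rcases hU.ultra _ (hF.lt _ h3 _ hg.mem) with h | h
      · obtain ⟨d, hd⟩ := hg.const hκ hI hU hF h3 h
        exact ⟨_, hd, d, fun x hx _ => hx⟩
      · exact ⟨_, h, c, fun x hx hx' => absurd hx' hx⟩
    choose X hX d hd using h2
    have h3 : {x | (fCof ∘ g) x = b} ∩ ⋂ c : Iio b, X c.1 ∈ U :=
      hU.inter2 hκ hb (hU.iInter (hI b) _ fun c => hX c.1)
    have h4 : #(⋃ c : Iio b, Iic (d c.1)) < κ := by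
      refine (Cardinal.card_iUnion_lt_iff_forall_of_isRegular hκ.isRegular (hI b)).2
        (fun c => ?_)
      have : Iic (d c.1) = insert (d c.1) (Iio (d c.1)) := by
        ext y
        simp [le_iff_eq_or_lt]
      rw [this]
      refine (mk_insert_le).trans_lt ?_
      exact add_lt_of_lt hκ.aleph0_lt.le (hI _) (hκ.nat_lt 1)
    refine hg.not_small hκ hS hI hB hU hF h3 h4 fun x hx => mk_le_mk_of_subset fun y hy => ?_
    obtain ⟨hx1, hx2⟩ := hx
    rw [mem_iInter] at hx2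
    obtain ⟨c, hc, hc1, hc2⟩ := fE_spec (g x) y hy
    have hcb : c < b := by
      rwa [show fCof (g x) = b from hx1] at hc
    rw [mem_iUnion]
    refine ⟨⟨c, hcb⟩, ?_⟩
    rw [mem_Iic, ← hd c x (hx2 ⟨c, hcb⟩) hc2]
    exact hc1
  · refine ⟨_, h, fun x hx b hb hcon => hx ?_⟩
    exact lt_of_le_of_lt (wellFounded_lt.min_le (s := {b : S | ∃ T : Set S, T ⊆ Iio (g x) ∧
      (∀ y < g x, ∃ t ∈ T, y ≤ t) ∧ #T ≤ #(Iio b)}) hcon) hb

include hκ hS hI hB hU hF hg in
theorem Minl.inaccessible (hcl : ∀ φ ∈ base S, ∀ f ∈ F, φ ∘ f ∈ F) {l : Cardinal.{u}}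
    (hl : l < κ) : ∃ X ∈ U, ∀ x ∈ X, l < #(Iio (g x)) ∧ (#(Iio (g x))).IsInaccessible ∧
      ∀ b < g x, #(Iio b) ≠ #(Iio (g x)) := by
  obtain ⟨X1, hX1, h1⟩ := hg.init hκ hS hI hB hU hF hcl
  obtain ⟨X2, hX2, h2⟩ := hg.pow hκ hS hI hB hU hF hcl
  obtain ⟨X3, hX3, h3⟩ := hg.cof hκ hS hI hB hU hF hcl
  obtain ⟨X4, hX4, h4⟩ := hg.large hκ hS hI hB hU hF hl
  obtain ⟨X5, hX5, h5⟩ := hg.large hκ hS hI hB hU hF hκ.aleph0_lt
  refine ⟨_, hU.inter2 hκ hX1 (hU.inter2 hκ hX2 (hU.inter2 hκ hX3 (hU.inter2 hκ hX4 hX5))),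
    ?_⟩
  rintro x ⟨hx1, hx2, hx3, hx4, hx5⟩
  exact ⟨h4 x hx4, inaccessible_of (g x) (h5 x hx5) (h1 x hx1) (h3 x hx3) (h2 x hx2), h1 x hx1⟩

/-- The first place below `a` where the colouring `bc a` is different from `i` on `H`. -/
noncomputable def h1 (H : Set S) (i : Bool) (a : S) : S :=
  wellFounded_lt.min {y : S | y = a ∨ (y < a ∧ y ∈ H ∧ ∃ x ∈ H, x < y ∧ bc a x y ≠ i)}
    ⟨a, Or.inl rfl⟩

/-- The corresponding first coordinate. -/
noncomputable def h2 (H : Set S) (i : Bool) (a : S) : S :=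
  wellFounded_lt.min {x : S | x = h1 H i a ∨ (x ∈ H ∧ x < h1 H i a ∧ bc a x (h1 H i a) ≠ i)}
    ⟨h1 H i a, Or.inl rfl⟩

/-- The least `b` such that `Iio b` is as large as the part of `H` below `a`. -/
noncomputable def h3 (H : Set S) (a : S) : S :=
  wellFounded_lt.min {b : S | #(H ∩ Iio a : Set S) ≤ #(Iio b)}
    ⟨a, mk_le_mk_of_subset inter_subset_right⟩

theorem h1_spec (H : Set S) (i : Bool) (a : S) (h : h1 H i a < a) :
    h1 H i a ∈ H ∧ ∃ x ∈ H, x < h1 H i a ∧ bc a x (h1 H i a) ≠ i := by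
  have := wellFounded_lt.min_mem {y : S | y = a ∨ (y < a ∧ y ∈ H ∧ ∃ x ∈ H, x < y ∧ bc a x y ≠ i)}
    ⟨a, Or.inl rfl⟩
  rcases this with h' | h'
  · exact absurd h' h.ne
  · exact h'.2

theorem h1_le (H : Set S) (i : Bool) (a : S) (h : ¬ h1 H i a < a) : Homog (bc a) (H ∩ Iio a) i := by
  rintro x ⟨hx, hxa⟩ y ⟨hy, hya⟩ hxy
  by_contra hcon
  refine h (lt_of_le_of_lt (wellFounded_lt.min_le (s := {y : S | y = a ∨ (y < a ∧ y ∈ H ∧
    ∃ x ∈ H, x < y ∧ bc a x y ≠ i)}) ?_) hya)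
  exact Or.inr ⟨hya, hy, x, hx, hxy, hcon⟩

theorem h2_spec (H : Set S) (i : Bool) (a : S) (h : h1 H i a < a) :
    h2 H i a ∈ H ∧ h2 H i a < h1 H i a ∧ bc a (h2 H i a) (h1 H i a) ≠ i := by
  obtain ⟨-, x, hx, hx1, hx2⟩ := h1_spec H i a h
  have h' := wellFounded_lt.min_mem {x : S | x = h1 H i a ∨ (x ∈ H ∧ x < h1 H i a ∧
    bc a x (h1 H i a) ≠ i)} ⟨h1 H i a, Or.inl rfl⟩
  have h'' : h2 H i a ≤ x := wellFounded_lt.min_le (s := {x : S | x = h1 H i a ∨
    (x ∈ H ∧ x < h1 H i a ∧ bc a x (h1 H i a) ≠ i)}) (Or.inr ⟨hx, hx1, hx2⟩)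
  rcases h' with h' | h'
  · exact absurd h' (h''.trans_lt hx1).ne
  · exact h'

/-- The functions used for `H` and `i`. -/
def hset (H : Set S) (i : Bool) : Set (S → S) := {h1 H i, h2 H i, h3 H}

include hκ hS hI hB hU hF hg in
theorem Minl.ram {H : Set S} {i : Bool}
    (hH : #H = κ) (hHi : ∀ x ∈ H, ∀ y ∈ H, x < y → {z | bc (g z) x y = i} ∈ U)
    (hcl' : ∀ φ ∈ hset H i, φ ∘ g ∈ F) :
    ∃ X ∈ U, ∀ x ∈ X, ∀ c, ¬ BadC (g x) c := by
  have m1 : h1 H i ∘ g ∈ F := hcl' _ (by simp [hset])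
  have m2 : h2 H i ∘ g ∈ F := hcl' _ (by simp [hset])
  have m3 : h3 H ∘ g ∈ F := hcl' _ (by simp [hset])
  have c1 : {x | (h1 H i ∘ g) x < g x}ᶜ ∈ U := by
    refine (hU.ultra _ (hF.lt _ m1 _ hg.mem)).resolve_left fun h => ?_
    have h' : {x | (h2 H i ∘ g) x < g x} ∈ U :=
      hU.up _ h _ (hF.lt _ m2 _ hg.mem) fun x hx => (h2_spec H i (g x) hx).2.1.trans hx
    obtain ⟨y, hy⟩ := hg.const hκ hI hU hF m1 h
    obtain ⟨x, hx⟩ := hg.const hκ hI hU hF m2 h'
    obtain ⟨z, ⟨hz1, hz2⟩, hz3⟩ := hU.nonempty hκ (hU.inter2 hκ (hU.inter2 hκ hy hx) h)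
    obtain ⟨p1, p2, p3⟩ := h2_spec H i (g z) hz3
    have p4 := (h1_spec H i (g z) hz3).1
    rw [show h1 H i (g z) = y from hz1] at p2 p3 p4
    rw [show h2 H i (g z) = x from hz2] at p1 p2 p3
    obtain ⟨w, ⟨⟨hw1, hw2⟩, hw3⟩, hw4⟩ := hU.nonempty hκ (hU.inter2 hκ (hU.inter2 hκ
      (hU.inter2 hκ hy hx) h) (hHi x p1 y p4 p2))
    obtain ⟨-, -, q3⟩ := h2_spec H i (g w) hw3
    rw [show h1 H i (g w) = y from hw1, show h2 H i (g w) = x from hw2] at q3
    exact q3 hw4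
  have c3 : {x | (h3 H ∘ g) x < g x}ᶜ ∈ U := by
    refine (hU.ultra _ (hF.lt _ m3 _ hg.mem)).resolve_left fun h => ?_
    obtain ⟨b, hb⟩ := hg.const hκ hI hU hF m3 h
    have k1 : Order.succ #(Iio b) < κ := hκ.isSuccLimit.succ_lt (hI b)
    have k2 := k1
    rw [← hH, lt_iff_le_and_ne] at k1
    obtain ⟨T, hTH, hT⟩ := le_mk_iff_exists_subset.1 k1.1
    obtain ⟨b', hb'⟩ := bounded hκ hS hI (T := T) (by rwa [hT])
    have k3 := (hU.ultra _ (hF.lt' hI hB hg.mem b')).resolve_left (hg.unb b')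
    obtain ⟨x, hx1, hx2⟩ := hU.nonempty hκ (hU.inter2 hκ hb k3)
    rw [mem_compl_iff, mem_ofPred_eq, not_lt] at hx2
    have k4 := wellFounded_lt.min_mem {b : S | #(H ∩ Iio (g x) : Set S) ≤ #(Iio b)}
      ⟨g x, mk_le_mk_of_subset inter_subset_right⟩
    change #(H ∩ Iio (g x) : Set S) ≤ #(Iio (h3 H (g x))) at k4
    rw [show h3 H (g x) = b from hx1] at k4
    have k5 : #T ≤ #(H ∩ Iio (g x) : Set S) :=
      mk_le_mk_of_subset fun t ht => ⟨hTH ht, (hb' t ht).trans_le hx2⟩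
    rw [hT] at k5
    exact absurd (k5.trans k4) (not_le.2 (Order.lt_succ _))
  refine ⟨_, hU.inter2 hκ c1 c3, fun x hx => ?_⟩
  obtain ⟨hx1, hx3⟩ := hx
  refine bc_spec (g x) (H ∩ Iio (g x)) i inter_subset_right ?_ (h1_le H i (g x) hx1)
  by_contra hcon
  have k6 := lt_of_le_of_ne (mk_le_mk_of_subset (inter_subset_right (s := H) (t := Iio (g x)))) hcon
  obtain ⟨b, hb, hb1⟩ := exists_Iio_eq (g x) k6
  refine hx3 (lt_of_le_of_lt (wellFounded_lt.min_le
    (s := {b : S | #(H ∩ Iio (g x) : Set S) ≤ #(Iio b)}) ?_) hb)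
  exact hb1.ge

/-- `κ` is weakly compact: it is inaccessible and has the partition property for pairs and two
colours. -/
def IsWeaklyCompact (ν : Cardinal.{u}) : Prop := ν.IsInaccessible ∧ Ram ν.ord.ToType

theorem wc_of (a : S) (h : (#(Iio a)).IsInaccessible) (h1 : ∀ b < a, #(Iio b) ≠ #(Iio a))
    (h2 : ∀ c, ¬ BadC a c) : IsWeaklyCompact #(Iio a) := by
  refine ⟨h, ?_⟩
  have ht : (#(Iio a)).ord = type (α := Iio a) (· < ·) := by
    refine (ord_le_type _).antisymm ?_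
    by_contra hcon
    rw [not_le] at hcon
    set b := enum (α := Iio a) (· < ·) ⟨_, hcon⟩ with hb
    have h4 := card_typein (r := fun y z : Iio a => y < z) b
    rw [hb, typein_enum, card_ord, ← hb] at h4
    refine h1 b.1 b.2 ?_
    rw [h4]
    refine mk_congr ⟨fun y => ⟨⟨y.1, y.2.trans b.2⟩, y.2⟩, fun y => ⟨y.1.1, y.2⟩,
      fun y => rfl, fun y => rfl⟩
  rw [← type_toType (#(Iio a)).ord] at ht
  obtain ⟨e⟩ := type_eq.1 ht
  refine Ram.of_iso (T := Iio a) ?_ (OrderIso.ofRelIsoLT e).symm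
  intro c
  by_contra hcon
  push Not at hcon
  classical
  refine h2 (fun x y => if h : x < a ∧ y < a then c ⟨x, h.1⟩ ⟨y, h.2⟩ else true) ?_
  intro H i hH1 hH2 hH3
  refine hcon (Subtype.val ⁻¹' H) i ?_ ?_
  · rw [← hH2, mk_preimage_of_injective_of_subset_range _ _ Subtype.val_injective]
    rw [Subtype.range_coe]
    exact hH1
  · rintro ⟨x, hx⟩ hx' ⟨y, hy⟩ hy' hxy
    have h5 := hH3 x hx' y hy' hxy
    have h6 : x < a ∧ y < a := ⟨hx, hy⟩
    change dite _ _ _ = i at h5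
    rwa [dif_pos h6] at h5

end

/-- The closure of `L` and the identity under composition. -/
def cl (L : Set (S → S)) : Set (S → S) :=
  {f | ∃ l : List (S → S), (∀ φ ∈ l, φ ∈ L) ∧ f = l.foldr (fun φ f => φ ∘ f) id}

theorem id_mem_cl (L : Set (S → S)) : id ∈ cl L := ⟨[], by simp, rfl⟩

theorem comp_mem_cl {L : Set (S → S)} {φ f : S → S} (hφ : φ ∈ L) (hf : f ∈ cl L) :
    φ ∘ f ∈ cl L := by
  obtain ⟨l, hl, rfl⟩ := hf
  refine ⟨φ :: l, ?_, rfl⟩
  intro ψ hψ
  rcases List.mem_cons.1 hψ with rfl | h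
  · exact hφ
  · exact hl _ h

theorem cl_mono {L L' : Set (S → S)} (h : L ⊆ L') : cl L ⊆ cl L' := by
  rintro f ⟨l, hl, rfl⟩
  exact ⟨l, fun φ hφ => h (hl φ hφ), rfl⟩

theorem mk_cl_le (hκ : ℵ₀ ≤ κ) {L : Set (S → S)} (hL : #L ≤ κ) : #(cl L) ≤ κ := by
  have h1 : cl L ⊆ range (fun l : List L => (l.map Subtype.val).foldr (fun φ f => φ ∘ f) id) := by
    rintro f ⟨l, hl, rfl⟩
    refine ⟨l.attach.map fun φ => ⟨φ.1, hl φ.1 φ.2⟩, ?_⟩
    simp [List.map_map, Function.comp_def]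
  refine (mk_le_mk_of_subset h1).trans (mk_range_le.trans ?_)
  refine (mk_list_le_max _).trans (max_le hκ hL)

/-- The generators of the algebra of the functions in `cl L`. -/
def gens (c : S → S → Bool) (L : Set (S → S)) : Set (Set S) :=
  range (fun x : S => ({x} : Set S)) ∪ (range (fun x : S => {y | c x y = true}) ∪
    ((fun p : (S → S) × (S → S) => {x | p.1 x < p.2 x}) '' (cl L ×ˢ cl L) ∪
      (fun p : (S → S) × S => {x | p.1 x = p.2}) '' (cl L ×ˢ Set.univ)))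

theorem gens_mono (c : S → S → Bool) {L L' : Set (S → S)} (h : L ⊆ L') :
    gens c L ⊆ gens c L' := by
  unfold gens
  have := cl_mono h
  gcongr

theorem mk_gens_le (hκ : ℵ₀ ≤ κ) (hS : #S = κ) (c : S → S → Bool) {L : Set (S → S)}
    (hL : #L ≤ κ) : #(gens c L) ≤ κ := by
  have h1 := mk_cl_le hκ hL
  unfold gens
  refine (mk_union_le _ _).trans (add_le_of_le hκ (mk_range_le.trans hS.le) ?_)
  refine (mk_union_le _ _).trans (add_le_of_le hκ (mk_range_le.trans hS.le) ?_)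
  refine (mk_union_le _ _).trans (add_le_of_le hκ ?_ ?_)
  · refine mk_image_le.trans ?_
    rw [mk_setProd]
    exact (mul_le_mul' h1 h1).trans (mul_eq_self hκ).le
  · refine mk_image_le.trans ?_
    rw [mk_setProd]
    simp only [mk_univ]
    exact (mul_le_mul' h1 hS.le).trans (mul_eq_self hκ).le

theorem mk_base_le (hκ : ℵ₀ ≤ κ) (hS : #S = κ) : #(base S) ≤ κ := by
  unfold base
  refine (mk_union_le _ _).trans (add_le_of_le hκ ?_ ?_)
  · have : ({fInit, fCof, fPow} : Set (S → S)).Finite := by simp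
    exact (this.lt_aleph0).le.trans hκ
  refine (mk_union_le _ _).trans (add_le_of_le hκ (mk_range_le.trans hS.le) ?_)
  refine mk_range_le.trans ?_
  simp only [mk_prod, Cardinal.lift_id, hS]
  rw [mul_eq_self hκ, mul_eq_self hκ]

open Classical in
/-- A homogeneous set for the colouring of the pairs which is given by `g` and `U`. -/
noncomputable def hom (κ : Cardinal.{u}) (g : S → S) (U : Set (Set S)) : Set S × Bool :=
  if h : ∃ p : Set S × Bool, #p.1 = κ ∧
    Homog (fun x y => decide ({z | bc (g z) x y = true} ∈ U)) p.1 p.2 then h.choose else (∅, true)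

open Classical in
theorem hom_spec (hS : #S = κ) (hR : Ram S) (g : S → S) (U : Set (Set S)) :
    #(hom κ g U).1 = κ ∧ Homog (fun x y => decide ({z | bc (g z) x y = true} ∈ U))
      (hom κ g U).1 (hom κ g U).2 := by
  have h : ∃ p : Set S × Bool, #p.1 = κ ∧
      Homog (fun x y => decide ({z | bc (g z) x y = true} ∈ U)) p.1 p.2 := by
    obtain ⟨H, i, h1, h2⟩ := hR (fun x y => decide ({z | bc (g z) x y = true} ∈ U))
    exact ⟨(H, i), h1.trans hS, h2⟩
  have h' : hom κ g U = h.choose := by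
    unfold hom
    rw [dif_pos]
  rw [h']
  exact h.choose_spec

/-- The functions of the next stage. -/
noncomputable def next (κ : Cardinal.{u}) (L : Set (S → S)) (U : Set (Set S)) : Set (S → S) :=
  L ∪ ⋃ g : cl L, hset (hom κ g.1 U).1 (hom κ g.1 U).2

theorem mk_next_le (hκ : ℵ₀ ≤ κ) {L : Set (S → S)} (hL : #L ≤ κ) (U : Set (Set S)) :
    #(next κ L U) ≤ κ := by
  unfold next
  refine (mk_union_le _ _).trans (add_le_of_le hκ hL ?_)
  refine (mk_iUnion_le_sum_mk).trans ?_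
  have : ∀ g : cl L, #(hset (hom κ g.1 U).1 (hom κ g.1 U).2) ≤ ℵ₀ := by
    intro g
    unfold hset
    have : ({h1 (hom κ g.1 U).1 (hom κ g.1 U).2, h2 (hom κ g.1 U).1 (hom κ g.1 U).2,
      h3 (hom κ g.1 U).1} : Set (S → S)).Finite := by simp
    exact (this.lt_aleph0).le
  refine (sum_le_sum _ _ this).trans ?_
  rw [sum_const']
  exact (mul_le_mul' (mk_cl_le hκ hL) hκ).trans (mul_eq_self hκ).le

theorem ram_of_ult (hκ : κ.IsInaccessible) (hS : #S = κ) (hI : ∀ x : S, #(Iio x) < κ)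
    {B U : Set (Set S)} (hU : IsUlt κ B U) (c : S → S → Bool)
    (hc : ∀ x, {y | c x y = true} ∈ B) : ∃ (H : Set S) (i : Bool), #H = #S ∧ Homog c H i := by
  have h1 : ∀ x, ∃ i : Bool, ∃ X ∈ U, ∀ y ∈ X, c x y = i := by
    intro x
    rcases hU.ultra _ (hc x) with h | h
    · exact ⟨true, _, h, fun y hy => hy⟩
    · refine ⟨false, _, h, fun y hy => ?_⟩
      rw [mem_compl_iff, mem_ofPred_eq] at hy
      simpa using hy
  choose i X hX hi using h1
  have h2 : ∀ (a : S) (f : Iio a → S), ∃ y, ∀ b : Iio a, y ∈ X (f b) ∧ f b < y := by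
    intro a f
    obtain ⟨b0, hb0⟩ := bounded hκ hS hI (T := range f) (mk_range_le.trans_lt (hI a))
    have h3 : (⋂ b : Iio a, X (f b)) ∈ U := hU.iInter (hI a) _ fun b => hX _
    have h4 := hU.uniform _ h3
    by_contra hcon
    push Not at hcon
    have h5 : (⋂ b : Iio a, X (f b)) ⊆ Iio b0 := by
      intro y hy
      obtain ⟨b, hb⟩ := hcon y
      rw [mem_iInter] at hy
      exact (hb (hy b)).trans_lt (hb0 _ ⟨b, rfl⟩)
    have := mk_le_mk_of_subset h5
    rw [h4] at this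
    exact absurd (hI b0) (not_lt.2 this)
  choose n hn using h2
  let h : S → S := wellFounded_lt.fix fun a ih => n a fun b => ih b.1 b.2
  have hh : ∀ a, ∀ b < a, h a ∈ X (h b) ∧ h b < h a := by
    intro a b hb
    have : h a = n a fun b => h b.1 := wellFounded_lt.fix_eq _ _
    rw [this]
    exact hn a (fun b => h b.1) ⟨b, hb⟩
  have hinj : Function.Injective h := by
    have : StrictMono h := fun b a hb => (hh a b hb).2
    exact this.injective
  have h6 : ∀ b, #{a | i (h a) = b} = κ → ∃ (H : Set S) (i : Bool), #H = #S ∧ Homog c H i := by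
    intro b hb
    refine ⟨h '' {a | i (h a) = b}, b, ?_, ?_⟩
    · rw [mk_image_eq hinj, hb, hS]
    · rintro _ ⟨x, hx, rfl⟩ _ ⟨y, hy, rfl⟩ hxy
      have hxy' : x < y := by
        by_contra hcon
        rcases (not_lt.1 hcon).lt_or_eq with h | h
        · exact absurd (hh x y h).2 (not_lt.2 hxy.le)
        · rw [h] at hxy
          exact lt_irrefl _ hxy
      rw [hi (h x) (h y) (hh y x hxy').1]
      exact hx
  by_contra hcon
  have h7 : ∀ b, #{a | i (h a) = b} < κ := by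
    intro b
    refine lt_of_le_of_ne ?_ fun h => hcon (h6 b h)
    rw [← hS]
    exact mk_set_le _
  have h8 : (Set.univ : Set S) ⊆ {a | i (h a) = true} ∪ {a | i (h a) = false} := by
    intro a _
    rcases Bool.eq_false_or_eq_true (i (h a)) with h | h
    · exact Or.inl h
    · exact Or.inr h
  have h9 := (mk_le_mk_of_subset h8).trans (mk_union_le _ _)
  rw [mk_univ, hS] at h9
  exact absurd (add_lt_of_lt hκ.aleph0_lt.le (h7 true) (h7 false)) (not_lt.2 h9)

end core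

section play

variable {κ : Cardinal.{u}}
  (σ : Ordinal.{u} → (Ordinal.{u} → Set (Set κ.ord.ToType)) → Set (Set κ.ord.ToType))
  (c : κ.ord.ToType → κ.ord.ToType → Bool)

/-- The functions at stage `n` and the moves of player I before stage `n`. -/
noncomputable def stt :
    ℕ → Set (κ.ord.ToType → κ.ord.ToType) × (Ordinal.{u} → Set (Set κ.ord.ToType))
  | 0 => (base _, fun _ => ∅)
  | n + 1 =>
    (next κ (stt n).1 (σ n (Function.update (stt n).2 n (gen κ (gens c (stt n).1)))),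
      Function.update (stt n).2 n (gen κ (gens c (stt n).1)))

/-- The moves of player I. -/
noncomputable def mov (α : Ordinal.{u}) : Set (Set κ.ord.ToType) :=
  gen κ (⋃ n : ULift.{u} {n : ℕ // (n : Ordinal.{u}) ≤ α}, gens c (stt σ c n.down.1).1)

theorem stt_mono (n : ℕ) : (stt σ c n).1 ⊆ (stt σ c (n + 1)).1 := by
  rw [stt]
  exact subset_union_left

theorem stt_mono' {m n : ℕ} (h : m ≤ n) : (stt σ c m).1 ⊆ (stt σ c n).1 :=
  monotone_nat_of_le_succ (f := fun n => (stt σ c n).1) (stt_mono σ c) h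

theorem mk_stt_le (hκ : ℵ₀ ≤ κ) (n : ℕ) : #(stt σ c n).1 ≤ κ := by
  induction n with
  | zero => exact mk_base_le hκ (mk_ord_toType κ)
  | succ n ih =>
    rw [stt]
    exact mk_next_le hκ ih _

theorem mov_nat (n : ℕ) : mov σ c n = gen κ (gens c (stt σ c n).1) := by
  unfold mov
  congr 1
  refine (iUnion_subset fun m => gens_mono c (stt_mono' σ c ?_)).antisymm ?_
  · exact_mod_cast m.down.2
  · exact subset_iUnion_of_subset ⟨⟨n, le_rfl⟩⟩ subset_rfl

theorem stt_snd (n m : ℕ) (h : m < n) : (stt σ c n).2 m = gen κ (gens c (stt σ c m).1) := by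
  induction n with
  | zero => exact absurd h (by lia)
  | succ n ih =>
    rw [stt]
    rcases (Nat.lt_succ_iff.1 h).lt_or_eq with h' | h'
    · dsimp only
      rw [Function.update_of_ne (by exact_mod_cast h'.ne), ih h']
    · subst h'
      dsimp only
      rw [Function.update_self]

theorem stt_succ (hloc : ∀ α A A', (∀ β ≤ α, A β = A' β) → σ α A = σ α A') (n : ℕ) :
    (stt σ c (n + 1)).1 = next κ (stt σ c n).1 (σ n (mov σ c)) := by
  have h : σ n (Function.update (stt σ c n).2 n (gen κ (gens c (stt σ c n).1))) =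
      σ n (mov σ c) := by
    refine hloc _ _ _ fun β hβ => ?_
    obtain ⟨m, rfl⟩ := lt_omega0.1 (hβ.trans_lt (natCast_lt_omega0 n))
    have hm : m ≤ n := by exact_mod_cast hβ
    rw [mov_nat, ← stt_snd σ c (n + 1) m (Nat.lt_succ_iff.2 hm), stt]
  rw [← h, stt]

theorem mk_gens_stt (hκ : ℵ₀ ≤ κ) (n : ℕ) : #(gens c (stt σ c n).1) ≤ κ :=
  mk_gens_le (L := (stt σ c n).1) hκ (mk_ord_toType κ) c (mk_stt_le σ c hκ n)

attribute [irreducible] stt

theorem mk_union_gens (hκ : ℵ₀ ≤ κ) (β : Ordinal.{u}) :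
    #(⋃ n : ULift.{u} {n : ℕ // (n : Ordinal.{u}) ≤ β}, gens c (stt σ c n.down.1).1) ≤ κ := by
  refine (mk_iUnion_le_sum_mk).trans ?_
  have h1 := sum_le_sum (fun n : ULift.{u} {n : ℕ // (n : Ordinal.{u}) ≤ β} =>
    #(gens c (stt σ c n.down.1).1)) (fun _ => κ) (fun n => mk_gens_stt σ c hκ n.down.1)
  refine h1.trans ?_
  rw [sum_const']
  exact (mul_le_mul' ((mk_le_aleph0).trans hκ) le_rfl).trans (mul_eq_self hκ).le

theorem mk_Iio_lt' (x : κ.ord.ToType) : #(Iio x) < κ := by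
  simpa using mk_Iio_lt x

theorem legal (hκ : κ.IsInaccessible) (α : Ordinal.{u}) : LegalI κ (mov σ c) α := by
  have h0 : ∀ α : Ordinal.{u}, ∀ x, {x} ∈ mov σ c α := by
    intro α x
    refine subset_gen hκ _ ?_
    rw [mem_iUnion]
    exact ⟨⟨⟨0, by simp⟩⟩, Or.inl ⟨x, rfl⟩⟩
  refine ⟨fun β _ => isAlg_gen hκ _, fun β _ => ?_, fun β δ h _ => ?_, h0 0⟩
  · refine le_antisymm ?_ ?_
    · exact mk_gen_le hκ (mk_ord_toType κ) mk_Iio_lt' (mk_union_gens σ c hκ.aleph0_lt.le β)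
    · have h1 : range (fun x : κ.ord.ToType => ({x} : Set κ.ord.ToType)) ⊆ mov σ c β := by
        rintro _ ⟨x, rfl⟩
        exact h0 β x
      have h2 := mk_le_mk_of_subset h1
      rwa [mk_range_eq _ singleton_injective, mk_ord_toType] at h2
  · refine gen_mono (iUnion_subset fun n => ?_)
    exact subset_iUnion_of_subset ⟨n.down.1, n.down.2.trans h⟩ subset_rfl

theorem isAlg_genAlg {S : Type u} (G : Set (Set S)) : IsAlg κ (genAlg κ G) := by
  constructor
  · intro X hX B hB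
    exact hB.1.compl X (hX B hB)
  · intro T hT hc B hB
    exact hB.1.inter T (fun X hX => hT hX B hB) hc

theorem subset_genAlg {S : Type u} (G : Set (Set S)) : G ⊆ genAlg κ G :=
  fun _ hX _ hB => hB.2 hX

/-- The situation after the play. -/
theorem exists_ult (hκ : κ.IsInaccessible) {γ : Ordinal.{u}} (hγ : ω ≤ γ)
    (hσ : ∀ A, ∀ α < γ, LegalI κ A α → IsUlt κ (A α) (σ α A) ∧ ∀ β ≤ α, σ β A ⊆ σ α A)
    (hσ' : ∀ A, (∀ α < γ, LegalI κ A α) →
      ∃ V, IsUlt κ (genAlg κ (⋃ α < γ, A α)) V ∧ ∀ α < γ, σ α A ⊆ V) :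
    ∃ B V : Set (Set κ.ord.ToType), IsAlg κ B ∧ IsUlt κ B V ∧ ∀ n : ℕ, mov σ c n ⊆ B ∧
      σ n (mov σ c) ⊆ V := by
  rcases hγ.eq_or_lt with h | h
  · subst h
    obtain ⟨V, hV, hV'⟩ := hσ' (mov σ c) fun α _ => legal σ c hκ α
    refine ⟨_, V, isAlg_genAlg _, hV, fun n => ⟨?_, hV' n (natCast_lt_omega0 n)⟩⟩
    refine Subset.trans ?_ (subset_genAlg _)
    exact subset_iUnion₂_of_subset (n : Ordinal) (natCast_lt_omega0 n) subset_rfl
  · have h1 := legal σ c hκ ω
    obtain ⟨h2, h3⟩ := hσ (mov σ c) ω h h1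
    exact ⟨_, _, h1.alg ω le_rfl, h2, fun n => ⟨h1.mono _ _ (natCast_lt_omega0 n).le le_rfl,
      h3 _ (natCast_lt_omega0 n).le⟩⟩

end play

theorem StarWins.ram {κ : Cardinal.{u}} (hκ : κ.IsInaccessible) {γ : Ordinal.{u}} (hγ : ω ≤ γ)
    (h : StarWins κ γ) : Ram κ.ord.ToType := by
  obtain ⟨σ, -, hσ, -⟩ := h
  intro c
  have h1 := legal σ c hκ 0
  have h2 := (hσ _ 0 (omega0_pos.trans_le hγ) h1).1
  refine ram_of_ult hκ (mk_ord_toType κ) mk_Iio_lt' h2 c fun x => ?_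
  refine subset_gen hκ _ ?_
  rw [mem_iUnion]
  exact ⟨⟨⟨0, by simp⟩⟩, Or.inr (Or.inl ⟨x, rfl⟩)⟩

open Classical in
theorem StarWins.limit {κ : Cardinal.{u}} (hκ : κ.IsInaccessible) {γ : Ordinal.{u}} (hγ : ω ≤ γ)
    (h : StarWins κ γ) {l : Cardinal.{u}} (hl : l < κ) :
    ∃ ν, l < ν ∧ ν < κ ∧ IsWeaklyCompact ν := by
  have hR := h.ram hκ hγ
  obtain ⟨σ, hloc, hσ, hσ'⟩ := h
  let c : κ.ord.ToType → κ.ord.ToType → Bool := fun _ _ => true
  obtain ⟨B, V, hB, hV, hBV⟩ := exists_ult σ c hκ hγ hσ hσ'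
  let F : Set (κ.ord.ToType → κ.ord.ToType) := ⋃ n, cl (stt σ c n).1
  have hF : Good B F := by
    constructor
    · intro f hf g hg
      obtain ⟨m, hm⟩ := mem_iUnion.1 hf
      obtain ⟨n, hn⟩ := mem_iUnion.1 hg
      have hm' := cl_mono (stt_mono' σ c (le_max_left m n)) hm
      have hn' := cl_mono (stt_mono' σ c (le_max_right m n)) hn
      refine (hBV (max m n)).1 ?_
      rw [mov_nat]
      exact subset_gen hκ _ (Or.inr (Or.inr (Or.inl ⟨(f, g), ⟨hm', hn'⟩, rfl⟩)))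
    · intro f hf b
      obtain ⟨m, hm⟩ := mem_iUnion.1 hf
      refine (hBV m).1 ?_
      rw [mov_nat]
      exact subset_gen hκ _ (Or.inr (Or.inr (Or.inr ⟨(f, b), ⟨hm, trivial⟩, rfl⟩)))
  have hid : id ∈ F := mem_iUnion.2 ⟨0, id_mem_cl _⟩
  have hst0 : (stt σ c 0).1 = base _ := by
    rw [stt]
  have hcl : ∀ φ ∈ base κ.ord.ToType, ∀ f ∈ F, φ ∘ f ∈ F := by
    intro φ hφ f hf
    obtain ⟨m, hm⟩ := mem_iUnion.1 hf
    rw [← hst0] at hφ
    exact mem_iUnion.2 ⟨m, comp_mem_cl (stt_mono' σ c (Nat.zero_le m) hφ) hm⟩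
  have hS : #κ.ord.ToType = κ := mk_ord_toType κ
  obtain ⟨g, hg1, hg2, hg3⟩ := exists_min hκ mk_Iio_lt' hV hid
  have hg : Minl V F g := ⟨hg1, hg2, hg3⟩
  obtain ⟨n, hn⟩ := mem_iUnion.1 hg1
  obtain ⟨q1, q2⟩ := hom_spec hS hR g (σ n (mov σ c))
  have hcl' : ∀ φ ∈ hset (hom κ g (σ n (mov σ c))).1 (hom κ g (σ n (mov σ c))).2,
      φ ∘ g ∈ F := by
    intro φ hφ
    refine mem_iUnion.2 ⟨n + 1, comp_mem_cl ?_ (cl_mono (stt_mono σ c n) hn)⟩
    rw [stt_succ σ c hloc]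
    exact Or.inr (mem_iUnion.2 ⟨⟨g, hn⟩, hφ⟩)
  have hleg := legal σ c hκ n
  -- the colouring is correct
  have key : ∀ x y i, decide ({z | bc (g z) x y = true} ∈ σ n (mov σ c)) = i →
      {z | bc (g z) x y = i} ∈ V := by
    intro x y i hi
    obtain ⟨s, t, hst⟩ : ∃ s t : κ.ord.ToType, s ≠ t := by
      have : 1 < #κ.ord.ToType := by
        rw [hS]
        exact_mod_cast hκ.nat_lt 1
      obtain ⟨s, t, h⟩ := one_lt_iff_nontrivial.1 this
      exact ⟨s, t, h⟩
    have hult := (hσ _ n ((natCast_lt_omega0 n).trans_le hγ) hleg).1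
    have hb : fBc s t x y ∈ (stt σ c n).1 := by
      refine stt_mono' σ c (Nat.zero_le n) ?_
      rw [hst0]
      exact Or.inr (Or.inr ⟨((s, t), (x, y)), rfl⟩)
    have hb' : fBc s t x y ∘ g ∈ cl (stt σ c n).1 := comp_mem_cl hb hn
    have hmem : {z | bc (g z) x y = true} ∈ mov σ c n := by
      rw [mov_nat]
      refine subset_gen hκ _ (Or.inr (Or.inr (Or.inr
        ⟨(fBc s t x y ∘ g, s), ⟨hb', trivial⟩, ?_⟩)))
      ext z
      simp only [mem_ofPred_eq, Function.comp_apply, fBc]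
      by_cases h : bc (g z) x y = true
      · simp [h]
      · simp [h, hst.symm]
    cases i with
    | true =>
      rw [decide_eq_true_eq] at hi
      exact (hBV n).2 hi
    | false =>
      rw [decide_eq_false_iff_not] at hi
      have h5 := (hBV n).2 ((hult.ultra _ hmem).resolve_left hi)
      have h6 : {z | bc (g z) x y = true}ᶜ = {z | bc (g z) x y = false} := by
        ext z
        simp
      rwa [h6] at h5
  obtain ⟨X, hX, hX'⟩ := hg.ram hκ hS mk_Iio_lt' hB hV hF q1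
    (fun x hx y hy hxy => key x y _ (q2 x hx y hy hxy)) hcl'
  obtain ⟨Y, hY, hY'⟩ := hg.inaccessible hκ hS mk_Iio_lt' hB hV hF hcl hl
  obtain ⟨x, hx1, hx2⟩ := hV.nonempty hκ (hV.inter2 hκ hX hY)
  obtain ⟨r1, r2, r3⟩ := hY' x hx2
  exact ⟨_, r1, mk_Iio_lt' _, wc_of (g x) r2 r3 (hX' x hx1)⟩

theorem ulam {κ μ : Cardinal.{u}} (hμ : IsMeasurable μ) (h : μ < κ) {γ : Ordinal.{u}}
    (hγ : γ < μ.ord) : UlamWins κ γ := by
  obtain ⟨h0, D, hD1, hD2⟩ := hμ
  have h1 : #μ.ord.ToType ≤ #κ.ord.ToType := by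
    rw [mk_ord_toType, mk_ord_toType]
    exact h.le
  obtain ⟨e⟩ := h1
  classical
  let σ : Ordinal.{u} → (Ordinal.{u} → Set κ.ord.ToType × Set κ.ord.ToType) → Bool :=
    fun α P => decide (e ⁻¹' (P α).1 ∈ D)
  refine ⟨σ, fun α P P' hP => ?_, fun P hP => ?_⟩
  · simp only [σ]
    rw [hP α le_rfl]
  · have h2 : ∀ β < μ.ord, ∀ T : Ordinal.{u} → Set κ.ord.ToType,
        (∀ δ < β, e ⁻¹' T δ ∈ D) → e ⁻¹' {x | ∀ δ < β, x ∈ T δ} ∈ D := by
      intro β hβ T hT
      have h3 := hD2 (range fun i : β.ToType => e ⁻¹' T (i : Ordinal)) ?_ ?_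
      · refine Filter.mem_of_superset h3 fun x hx δ hδ => ?_
        rw [mem_sInter] at hx
        have := hx _ ⟨ToType.mk ⟨δ, hδ⟩, rfl⟩
        simpa using this
      · rintro _ ⟨i, rfl⟩
        exact hT _ i.toOrd.2
      · refine mk_range_le.trans_lt ?_
        rw [mk_toType]
        exact lt_ord.1 hβ
    have h4 : ∀ α < γ, e ⁻¹' chosen σ P α ∈ D := by
      intro α
      induction α using WellFoundedLT.induction with
      | ind α ih =>
        intro hα
        have h5 := h2 α (hα.trans hγ) (chosen σ P) fun δ hδ => ih δ hδ (hδ.trans hα)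
        rw [← (hP α hα).1, preimage_union] at h5
        unfold chosen
        by_cases h6 : e ⁻¹' (P α).1 ∈ D
        · have : σ α P = true := by
            simp only [σ, decide_eq_true_eq]
            exact h6
          rw [if_pos this]
          exact h6
        · have : ¬ σ α P = true := by
            simp only [σ, decide_eq_true_eq]
            exact h6
          rw [if_neg this]
          exact (Ultrafilter.union_mem_iff.1 h5).resolve_left h6
    have h7 : e ⁻¹' {x | ∀ δ < γ, x ∈ chosen σ P δ} ∈ D :=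
      h2 γ hγ _ h4
    obtain ⟨x, hx⟩ := Ultrafilter.nonempty_of_mem h7
    have h8 : ∃ y, y ≠ x ∧ y ∈ e ⁻¹' {x | ∀ δ < γ, x ∈ chosen σ P δ} := by
      by_contra hcon
      push Not at hcon
      refine hD1 x (Filter.mem_of_superset h7 fun y hy => ?_)
      by_contra hyx
      exact hcon y hyx hy
    obtain ⟨y, hyx, hy⟩ := h8
    exact ⟨e x, e y, fun h => hyx (e.injective h).symm, fun α hα => ⟨hx α hα, hy α hα⟩⟩

/-- If `μ` is measurable, `κ > μ` is inaccessible and no cardinal strictly between `μ` and `κ` is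
weakly compact (`κ` itself may be weakly compact or not), then for `ω ≤ γ < μ` player II has a
winning strategy in the Ulam game of length `γ` on `κ`, but none in `𝒢*_γ` on `κ`. -/
theorem result (μ κ : Cardinal.{u}) (hμ : IsMeasurable μ) (hκ : κ.IsInaccessible) (hμκ : μ < κ)
    (hno : ∀ ν, μ < ν → ν < κ → ¬ IsWeaklyCompact ν) (γ : Ordinal.{u}) (hγ : ω ≤ γ)
    (hγμ : γ < μ.ord) : UlamWins κ γ ∧ ¬ StarWins κ γ := by
  refine ⟨ulam hμ hμκ hγμ, fun h => ?_⟩
  obtain ⟨ν, h1, h2, h3⟩ := h.limit hκ hγ hμκ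
  exact hno ν h1 h2 h3

end Pool.Agent.Results.MP_0eb1a9_lc.UlamNotStar
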